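import Pool.Agent.SCT.StmtsP

namespace Pool.Agent.SCT.H77

theorem lsx : LsxStmt := by
  classical
  intro C Ω _ _ _ ι κ _ _ A b w h
  obtain ⟨ρ, hρ⟩ : ∃ ρ : Ω →ₗ[C] C, ρ ∘ₗ (Algebra.linearMap C Ω) = LinearMap.id :=
    LinearMap.exists_leftInverse_of_injective _
      (LinearMap.ker_eq_bot.mpr (algebraMap C Ω).injective)
  have hρ' : ∀ c : C, ρ (algebraMap C Ω c) = c := fun c => LinearMap.congr_fun hρ c
  refine ⟨fun i => ρ (w i), ?_⟩
  funext k
  have hk := congrFun h k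
  have h2 : ρ ((A.map (algebraMap C Ω)).mulVec w k) = b k := by rw [hk, hρ']
  rw [← h2]
  simp only [Matrix.mulVec, dotProduct, Matrix.map_apply, map_sum]
  refine Finset.sum_congr rfl fun i _ => ?_
  rw [← Algebra.smul_def, map_smul, smul_eq_mul]

end Pool.Agent.SCT.H77
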